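import Pool.Agent.Lib.MP_85de51_alZ.Main
import Pool.Agent.Lib.MP_85de51_alP.Coding
set_option autoImplicit false

/-!
Negative answer to Q1 over every field `k`. If `2 ≠ 0` in `k` the Lie algebra over `k` with generators
`s, u, z` and the single defining relation
`[b + [[b, u], [b, [b, u]]], [b, [b, [b, u]]] - [b, u]] = 0`, `b = [s, u]`, has undecidable (subalgebra)
membership problem. If `2 = 0` in `k` the same holds for the relation
`ad(b)^3 ad(b - u)^4 (b) = 0`, `b = [s, u]`.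
-/

namespace Pool.Agent.Results.MP_85de51_al.AllFields

open _root_.MP_85de51_al

theorem result (k : Type) [Field k] [Primcodable k] :
    ∃ s u b r : FreeLieAlgebra k (Fin 3),
      s = FreeLieAlgebra.of k 0 ∧ u = FreeLieAlgebra.of k 1 ∧ b = ⁅s, u⁆ ∧
      ((2 : k) ≠ 0 → r = ⁅b + ⁅⁅b, u⁆, ⁅b, ⁅b, u⁆⁆⁆, ⁅b, ⁅b, ⁅b, u⁆⁆⁆ - ⁅b, u⁆⁆) ∧
      ((2 : k) = 0 → r = ⁅b, ⁅b, ⁅b, ⁅b - u, ⁅b - u, ⁅b - u, ⁅b - u, b⁆⁆⁆⁆⁆⁆⁆) ∧
      (∃ _ : Primcodable (FreeMagma (Fin 3)),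
        Computable₂ fun v w : FreeMagma (Fin 3) => v * w) ∧
      ∀ _ : Primcodable (FreeMagma (Fin 3)),
        (Computable₂ fun v w : FreeMagma (Fin 3) => v * w) →
        ¬ ComputablePred (fun x : List (List (k × FreeMagma (Fin 3))) ×
          List (k × FreeMagma (Fin 3)) => Member k r x) := by
  by_cases h2 : (2 : k) = 0
  · have : CharP k 2 := CharTwo.of_one_ne_zero_of_two_eq_zero one_ne_zero h2
    have : Fact (Nat.Prime 2) := ⟨Nat.prime_two⟩
    exact ⟨_, _, _, OneRelP.relP k 4, rfl, rfl, rfl, fun h => absurd h2 h, fun _ => rfl,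
      OneRelP.exists_coding, fun _ h => OneRelP.main k 2 2 (by norm_num) h⟩
  · exact ⟨_, _, _, OneRelZ.relZ k, rfl, rfl, rfl, fun _ => rfl, fun h => absurd h h2,
      OneRelP.exists_coding, fun _ h => OneRelZ.main k h2 h⟩

end Pool.Agent.Results.MP_85de51_al.AllFields
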